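import Mathlib
import Pool.Agent.W372.AC.SufA
import Pool.Agent.W372.AC.SufB
import Pool.Agent.W372.AC.SufC

/-!
Finite `p`-groups whose group of class-preserving automorphisms has order `|γ₂(G)|^{d(G)}`.
-/

set_option autoImplicit false

open scoped commutatorElement

namespace Pool.Agent.Results.MP_932391_al.Classification

open Pool.Agent.W372.AC Pool.Agent.Helper832.AutC

/-- The number of class-preserving automorphisms of a finite `p`-group `G` equals
`|γ₂(G)|^{d(G)}` if and only if `G` belongs to one of three families. -/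
theorem result (p : ℕ) (hp : p.Prime) (G : Type) [Group G] [Finite G] (hG : IsPGroup p G) :
    Nat.card {α : MulAut G // ∀ x : G, IsConj x (α x)}
        = Nat.card (commutator G) ^ Group.rank G ↔
      ((commutator G ≤ Subgroup.center G ∧
          ∀ x : G, x ∉ frattini G → ∀ c ∈ commutator G, ∃ g : G, ⁅x, g⁆ = c) ∨
        (Group.rank G = 2 ∧ IsCyclic (commutator G) ∧
          (p = 2 → ∀ c ∈ commutator G, ∀ g : G, ∃ b ∈ commutator G, ⁅c, g⁆ = b ^ 4)) ∨
        (p = 2 ∧ Group.rank G = 2 ∧ (∀ a b c d : G, ⁅⁅⁅a, b⁆, c⁆, d⁆ = 1) ∧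
          ∀ c ∈ commutator G, c ^ 2 = 1)) := by
  have e : Nat.card {α : MulAut G // ∀ x : G, IsConj x (α x)} = Nat.card (AutC G) := rfl
  rw [e]
  constructor
  · intro h
    exact necessity hp hG h
  · rintro (⟨h1, h2⟩ | ⟨h1, h2, h3⟩ | ⟨rfl, h1, h2, h3⟩)
    · exact suf_one hp hG h1 h2
    · exact suf_two hp hG h1 h2 h3
    · exact suf_three hG h1 h2 h3

end Pool.Agent.Results.MP_932391_al.Classification
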